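import Pool.Agent.Helper12.EK.Defs

/-!
# The minority graph of the large orbits
-/

set_option autoImplicit false
set_option linter.unusedSectionVars false

namespace Pool.Agent.Helper12.EK

open Pool.Agent.Helper6.MC

variable {M Col : Type} [Fintype M] [DecidableEq M] [DecidableEq Col] {c : M → M → Col}

lemma Df_Orb6 {A : Finset M} {L : ℕ} (hH : HitO c A L) (x : M) :
    ∀ y ∈ Orb c A x, ∀ y' ∈ Orb c A x, (Df c y y').card ≤ L := by
  intro y hy y' hy'
  refine hH y y' ?_
  rw [Orb_eq hy]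
  exact hy'

/-- the minority graph between two orbits -/
lemma kap6 (hf : Flip c) {A : Finset M} {L : ℕ} (hH : HitO c A L) {x z : M} (hx : x ∈ LO c A L)
    (hz : z ∈ LO c A L) :
    ∃ κ : Col, (∀ z' ∈ Orb c A z, Mj c (Orb c A x) z' κ) ∧
      ∀ x' ∈ Orb c A x, ∀ z' ∈ Orb c A z, (EO c A L x' z' ↔ c x' z' ≠ κ) := by
  obtain ⟨κ, hκ⟩ := major hf (mem_LO.1 hx) (mem_LO.1 hz) (Df_Orb6 hH x) (Df_Orb6 hH z)
  refine ⟨κ, hκ, fun x' hx' z' hz' => ?_⟩
  unfold EO
  rw [Orb_eq hx']
  constructor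
  · rintro ⟨-, -, h⟩ he
    rw [he] at h
    have := hκ z' hz'
    unfold Mj at this
    omega
  · intro h
    refine ⟨LO_of_mem hx' hx, LO_of_mem hz' hz, ?_⟩
    by_contra hcon
    exact h (Mj.unique (A := Orb c A x) (z := z') (not_le.1 hcon) (hκ z' hz'))

theorem EO_symm (hf : Flip c) {A : Finset M} {L : ℕ} (hH : HitO c A L) {x z : M} (h : EO c A L x z) :
    EO c A L z x := by
  have hx := h.1
  have hz := h.2.1
  obtain ⟨κ, h1, h2⟩ := kap6 hf hH hx hz
  obtain ⟨κ', h1', h2'⟩ := kap6 hf hH hz hx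
  have hx1 := self_Orb (c := c) (A := A) x
  have hz1 := self_Orb (c := c) (A := A) z
  have h3 : ∃ x1 ∈ Orb c A x, ∃ z1 ∈ Orb c A z, c x1 z1 = κ ∧ c z1 x1 = κ' := by
    by_contra hcon
    push Not at hcon
    have hA : 0 < (Orb c A x).card := Finset.card_pos.2 ⟨x, hx1⟩
    have hB : 0 < (Orb c A z).card := Finset.card_pos.2 ⟨z, hz1⟩
    have e1 : ∑ z1 ∈ Orb c A z, 2 * ((Orb c A x).filter (fun x1 => c x1 z1 ≠ κ)).card <
        ∑ z1 ∈ Orb c A z, (Orb c A x).card := by
      refine Finset.sum_lt_sum_of_nonempty ⟨z, hz1⟩ (fun z1 hz1 => ?_)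
      have h4 := h1 z1 hz1
      have h5 := filter_ne_card (c := c) (Orb c A x) z1 κ
      unfold Mj at h4
      omega
    have e2 : ∑ x1 ∈ Orb c A x, 2 * ((Orb c A z).filter (fun z1 => c z1 x1 ≠ κ')).card <
        ∑ x1 ∈ Orb c A x, (Orb c A z).card := by
      refine Finset.sum_lt_sum_of_nonempty ⟨x, hx1⟩ (fun x1 hx1 => ?_)
      have h4 := h1' x1 hx1
      have h5 := filter_ne_card (c := c) (Orb c A z) x1 κ'
      unfold Mj at h4
      omega
    have e3 : ∑ x1 ∈ Orb c A x, ((Orb c A z).filter (fun z1 => c z1 x1 ≠ κ')).card =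
        ∑ z1 ∈ Orb c A z, ((Orb c A x).filter (fun x1 => c z1 x1 ≠ κ')).card := by
      simp only [Finset.card_filter]
      exact Finset.sum_comm
    have e4 : ∑ z1 ∈ Orb c A z, (Orb c A x).card ≤
        ∑ z1 ∈ Orb c A z, (((Orb c A x).filter (fun x1 => c x1 z1 ≠ κ)).card +
          ((Orb c A x).filter (fun x1 => c z1 x1 ≠ κ')).card) := by
      refine Finset.sum_le_sum (fun z1 hz1 => ?_)
      refine (Finset.card_le_card ?_).trans (Finset.card_union_le _ _)
      intro x1 hx1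
      rw [Finset.mem_union, Finset.mem_filter, Finset.mem_filter]
      by_cases h : c x1 z1 = κ
      · exact Or.inr ⟨hx1, hcon x1 hx1 z1 hz1 h⟩
      · exact Or.inl ⟨hx1, h⟩
    rw [Finset.sum_add_distrib] at e4
    rw [← Finset.mul_sum] at e1 e2
    rw [e3] at e2
    simp only [Finset.sum_const, smul_eq_mul] at e1 e2 e4
    have : (Orb c A x).card * (Orb c A z).card = (Orb c A z).card * (Orb c A x).card := Nat.mul_comm _ _
    omega
  obtain ⟨x1, hx1', z1, hz1', e1, e2⟩ := h3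
  rw [h2' z hz1 x hx1]
  intro h4
  refine (h2 x hx1 z hz1).1 h ?_
  rw [← e1]
  exact hf _ _ _ _ (h4.trans e2.symm)

theorem EO_hom (hf : Flip c) {A : Finset M} {L : ℕ} (hH : HitO c A L) {x z x' z' : M} (hx : x ∈ LO c A L)
    (hz : z ∈ LO c A L) (hx' : x' ∈ Orb c A x) (hz' : z' ∈ Orb c A z) (h : ¬ EO c A L x z)
    (h' : ¬ EO c A L x' z') : c x z = c x' z' := by
  obtain ⟨κ, h1, h2⟩ := kap6 hf hH hx hz
  have e1 : c x z = κ := by
    by_contra hne
    exact h ((h2 x (self_Orb x) z (self_Orb z)).2 hne)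
  have e2 : c x' z' = κ := by
    by_contra hne
    exact h' ((h2 x' hx' z' hz').2 hne)
  rw [e1, e2]

open Classical in
theorem EO_card (hf : Flip c) {A : Finset M} {L : ℕ} (hH : HitO c A L) (x : M) :
    (Finset.univ.filter (fun z => EO c A L x z)).card ≤ 2 * L := by
  obtain ⟨Nb, hNb⟩ : ∃ Nb : Finset M, Nb = Finset.univ.filter (fun z => EO c A L x z) := ⟨_, rfl⟩
  have mem_Nb : ∀ z, z ∈ Nb ↔ EO c A L x z := by
    intro z
    rw [hNb]
    simp
  rw [← hNb]
  by_cases hx : x ∈ LO c A L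
  swap
  · have : Nb = ∅ := by
      rw [Finset.eq_empty_iff_forall_notMem]
      intro z hz
      exact hx ((mem_Nb z).1 hz).1
    rw [this]
    simp
  have hA : 0 < (Orb c A x).card := by
    have := mem_LO.1 hx
    omega
  have h1 : ∀ x' ∈ Orb c A x, Nb.card ≤ (Nb.filter (fun z => EO c A L x' z)).card + L := by
    intro x' hx'
    have h2 : Nb ⊆ (Nb.filter (fun z => EO c A L x' z)) ∪ Df c x x' := by
      intro z hz
      rw [Finset.mem_union, Finset.mem_filter, mem_Df]
      by_cases h : EO c A L x' z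
      · exact Or.inl ⟨hz, h⟩
      · right
        intro he
        have hz' := (mem_Nb z).1 hz
        obtain ⟨κ, -, h3⟩ := kap6 hf hH hx hz'.2.1
        have h4 := (h3 x (self_Orb x) z (self_Orb z)).1 hz'
        rw [he] at h4
        exact h ((h3 x' hx' z (self_Orb z)).2 h4)
    refine (Finset.card_le_card h2).trans ((Finset.card_union_le _ _).trans ?_)
    exact Nat.add_le_add_left (Df_Orb6 hH x x (self_Orb x) x' hx') _
  have h2 := Finset.sum_le_sum h1
  rw [Finset.sum_add_distrib] at h2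
  have h3 : ∑ x' ∈ Orb c A x, (Nb.filter (fun z => EO c A L x' z)).card =
      ∑ z ∈ Nb, ((Orb c A x).filter (fun x' => EO c A L x' z)).card := by
    simp only [Finset.card_filter]
    exact Finset.sum_comm
  have h4 : ∑ z ∈ Nb, 2 * ((Orb c A x).filter (fun x' => EO c A L x' z)).card ≤
      ∑ z ∈ Nb, (Orb c A x).card := by
    refine Finset.sum_le_sum (fun z hz => ?_)
    have hz' := (mem_Nb z).1 hz
    obtain ⟨κ, h5, h6⟩ := kap6 hf hH hx hz'.2.1
    have h7 := h5 z (self_Orb z)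
    have h8 := filter_ne_card (c := c) (Orb c A x) z κ
    have h9 : (Orb c A x).filter (fun x' => EO c A L x' z) =
        (Orb c A x).filter (fun x' => c x' z ≠ κ) := by
      apply Finset.filter_congr
      intro x' hx'
      exact h6 x' hx' z (self_Orb z)
    rw [h9]
    unfold Mj at h7
    omega
  rw [← Finset.mul_sum] at h4
  rw [h3] at h2
  simp only [Finset.sum_const, smul_eq_mul] at h2 h4
  have h5 : (Orb c A x).card * Nb.card ≤ (Orb c A x).card * (2 * L) := by
    have e1 : Nb.card * (Orb c A x).card = (Orb c A x).card * Nb.card := Nat.mul_comm _ _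
    have e2 : (Orb c A x).card * (2 * L) = 2 * ((Orb c A x).card * L) := by ring
    omega
  exact Nat.le_of_mul_le_mul_left h5 hA

theorem EO_aut {A : Finset M} {L : ℕ} {g : Equiv.Perm M} (hg : St c A g) {x z : M}
    (h : EO c A L x z) : EO c A L (g x) (g z) := by
  have hx : g x ∈ Orb c A x := mem_Orb.2 ⟨g, hg, rfl⟩
  have hz : g z ∈ Orb c A z := mem_Orb.2 ⟨g, hg, rfl⟩
  refine ⟨LO_of_mem hx h.1, LO_of_mem hz h.2.1, ?_⟩
  rw [Orb_eq hx]
  have h1 : ((Orb c A x).filter (fun x' => c x' (g z) = c (g x) (g z))).card ≤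
      ((Orb c A x).filter (fun x' => c x' z = c x z)).card := by
    refine Finset.card_le_card_of_injOn g.symm (fun y hy => ?_) g.symm.injective.injOn
    rw [Finset.mem_coe, Finset.mem_filter] at hy ⊢
    refine ⟨map_Orb hy.1 hg.inv, ?_⟩
    have h2 := hg.1 (g.symm y) z
    rw [Equiv.apply_symm_apply] at h2
    rw [← h2, hy.2]
    exact hg.1 x z
  have h2 := h.2.2
  omega

end Pool.Agent.Helper12.EK
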