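import Pool.Agent.Helper6.EK.Step
import Pool.Agent.Helper14.EK.K10
import Pool.Agent.Helper96.EK.Num
import Pool.Agent.Helper40.EK.Key
import Pool.Agent.Helper38.EK.K12
import Pool.Agent.Helper20.EK.K13

/-!
# The exact border of the factorial layer
-/

set_option autoImplicit false

namespace Pool.Agent.Helper12.EK

open Pool.Agent.Helper6.MC

/-- K11: exponentially many automorphisms give families of `a * t + b` blocks of `t` points -/
theorem key6 (a b : ℕ) : ∃ K : ℕ, ∀ (M Col : Type) [Fintype M] [DecidableEq M] [DecidableEq Col]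
    (c : M → M → Col), Flip c → (∀ t, 1 ≤ t → ¬ Fam c t (a * t + b)) →
    Nat.card {g : Equiv.Perm M // IsAut c g} ≤ K ^ Fintype.card M :=
  Pool.Agent.Helper40.EK.key_of
    (fun M Col _ _ _ _ hf _ _ _ _ _ _ _ hq hs hL hM h1 h2 hD => step6 (M := M) (Col := Col) hf hq hs hL hM h1 h2 hD)
    num (fun _ _ _ _ _ _ _ _ _ hs => card_St_le hs) a b

open FirstOrder Pool.Agent.Helper20.Spectra Pool.Agent.Helper31.QD Pool.Agent.Helper38.MC
  Pool.Agent.Helper58.QD Pool.Agent.Helper40.MC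

/-- K12: structures with symbols of arities at most 2 -/
theorem keyR6 (a b : ℕ) : ∃ K : ℕ, ∀ (S : Type) [Finite S] (ar : S → ℕ), (∀ s, ar s ≤ 2) → ∀ (n : ℕ)
    (R : Interp S ar (Fin n)), (∀ t, 1 ≤ t → ¬ FamR R (a * t + b) t) → Nat.card (AuG R) ≤ K ^ n :=
  keyR_of key6 a b

/-- K13: the border of the factorial layer -/
theorem border6 (S : Type) [Finite S] (ar : S → ℕ) (har : ∀ s, ar s ≤ 2) (χ : (RelLang S ar).Sentence) :
    ∃ K : ℕ, (∀ᶠ n : ℕ in Filter.atTop, count χ n * K ^ n ≤ n.factorial) →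
      ∃ k, FinAP k (Pool.Agent.Helper40.MC.spec χ) :=
  exactFO keyR6 S ar har χ

end Pool.Agent.Helper12.EK
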