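import Pool.Agent.Helper6.EK.Deg
import Pool.Agent.Helper6.MC.Fam

/-!
# A small component with a large orbit gives a family of blocks
-/

set_option autoImplicit false
set_option linter.unusedSectionVars false

namespace Pool.Agent.Helper12.EK

open Pool.Agent.Helper6.MC

variable {M Col : Type} [Fintype M] [DecidableEq M] [DecidableEq Col] {c : M → M → Col}

/-- a small orbit and a large orbit: the colour is constant -/
lemma orbital6 {A : Finset M} {L : ℕ} (hH : HitO c A L) {x z : M}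
    (h : (Orb c A x).card ^ 2 * L < (Orb c A z).card) :
    ∀ x' ∈ Orb c A x, ∀ z' ∈ Orb c A z, c x' z' = c x z := by
  intro x' hx' z' hz'
  by_contra hne
  obtain ⟨g, hg, rfl⟩ := mem_Orb.1 hz'
  have h1 : c x z = c (g x) (g z) := (hg.1 x z).symm
  rw [h1] at hne
  have hgx : g x ∈ Orb c A x := map_Orb (self_Orb x) hg
  have h2 : Orb c A z ⊆ (Orb c A x ×ˢ Orb c A x).biUnion (fun p => Df c p.1 p.2) := by
    intro w hw
    have hw' : w ∈ Orb c A (g z) := by
      rw [Orb_eq hz']
      exact hw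
    obtain ⟨f, hf, rfl⟩ := mem_Orb.1 hw'
    rw [Finset.mem_biUnion]
    refine ⟨(f x', f (g x)), Finset.mk_mem_product (map_Orb hx' hf) (map_Orb hgx hf), ?_⟩
    rw [mem_Df]
    show c (f x') (f (g z)) ≠ c (f (g x)) (f (g z))
    rw [hf.1, hf.1]
    exact hne
  have h3 : (Orb c A z).card ≤ (Orb c A x).card ^ 2 * L := by
    refine (Finset.card_le_card h2).trans (Finset.card_biUnion_le.trans ?_)
    refine (Finset.sum_le_sum (fun p hp => ?_)).trans (le_of_eq ?_) (b := ∑ p ∈ Orb c A x ×ˢ Orb c A x, L)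
    · have hp' := Finset.mem_product.1 hp
      refine hH p.1 p.2 ?_
      rw [Orb_eq hp'.1]
      exact hp'.2
    · rw [Finset.sum_const, Finset.card_product, smul_eq_mul, pow_two]
  omega

lemma Gr_adj6 {E : M → M → Prop} {x y : M} : (Gr E).Adj x y ↔ x ≠ y ∧ (E x y ∨ E y x) :=
  SimpleGraph.fromRel_adj E x y

/-- reachability is preserved -/
lemma reach_map6 {A : Finset M} {L : ℕ} {g : Equiv.Perm M} (hg : St c A g) {x y : M}
    (h : (Gr (EO c A L)).Reachable x y) : (Gr (EO c A L)).Reachable (g x) (g y) := by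
  obtain ⟨p⟩ := h
  induction p with
  | nil => exact SimpleGraph.Reachable.refl _
  | cons hadj _ ih =>
    refine SimpleGraph.Reachable.trans (SimpleGraph.Adj.reachable ?_) ih
    rw [Gr_adj6] at hadj ⊢
    refine ⟨fun h => hadj.1 (g.injective h), ?_⟩
    rcases hadj.2 with h | h
    · exact Or.inl (EO_aut hg h)
    · exact Or.inr (EO_aut hg h)

lemma LO_reach6 {A : Finset M} {L : ℕ} {x y : M} (hx : x ∈ LO c A L)
    (h : (Gr (EO c A L)).Reachable x y) : y ∈ LO c A L := by
  obtain ⟨p⟩ := h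
  induction p with
  | nil => exact hx
  | cons hadj _ ih =>
    apply ih
    rw [Gr_adj6] at hadj
    rcases hadj.2 with h | h
    · exact h.2.1
    · exact h.1

lemma Cmp_eq6 {E : M → M → Prop} {x y : M} (h : (Gr E).Reachable x y) : Cmp E y = Cmp E x := by
  ext z
  rw [mem_Cmp, mem_Cmp]
  exact ⟨fun h' => h.trans h', fun h' => h.symm.trans h'⟩

lemma reach_of_Cmp6 {E : M → M → Prop} {x y : M} (h : Cmp E x = Cmp E y) : (Gr E).Reachable x y := by
  have h1 : y ∈ Cmp E y := mem_Cmp.2 (SimpleGraph.Reachable.refl y)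
  rw [← h] at h1
  exact mem_Cmp.1 h1

lemma Cmp_card6 {A : Finset M} {L : ℕ} {g : Equiv.Perm M} (hg : St c A g) (x : M) :
    (Cmp (EO c A L) (g x)).card ≤ (Cmp (EO c A L) x).card := by
  refine Finset.card_le_card_of_injOn g.symm (fun y hy => ?_) g.symm.injective.injOn
  rw [Finset.mem_coe, mem_Cmp] at hy ⊢
  have := reach_map6 hg.inv hy
  rw [Equiv.symm_apply_apply] at this
  exact this

lemma not_EO_of_Cmp6 {A : Finset M} {L : ℕ} {x y : M} (h : Cmp (EO c A L) x ≠ Cmp (EO c A L) y) :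
    ¬ EO c A L x y := by
  intro h1
  by_cases he : x = y
  · exact h (by rw [he])
  · exact h (Cmp_eq6 (Gr_adj6.2 ⟨he, Or.inl h1⟩ : (Gr (EO c A L)).Adj x y).reachable).symm

/-- K7: a small component with a large orbit gives a family -/
theorem small_comp6 (hf : Flip c) {A : Finset M} {L : ℕ} (hH : HitO c A L) {x : M} {k D : ℕ}
    (hk : (Cmp (EO c A L) x).card ≤ k) (hO : k * (D + 16 * L ^ 3 + 4 * L + 1) < (Orb c A x).card) :
    ∃ t, 1 ≤ t ∧ t ≤ k ∧ Fam c t D := by
  classical
  have hxx : x ∈ Cmp (EO c A L) x := mem_Cmp.2 (SimpleGraph.Reachable.refl x)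
  have hk1 : 1 ≤ k := le_trans (Finset.card_pos.2 ⟨x, hxx⟩) hk
  have hxL : x ∈ LO c A L := by
    rw [mem_LO]
    have : 1 * (D + 16 * L ^ 3 + 4 * L + 1) ≤ k * (D + 16 * L ^ 3 + 4 * L + 1) :=
      Nat.mul_le_mul_right _ hk1
    omega
  -- the images of the component
  have h1 : (Orb c A x).card ≤ k * ((Orb c A x).image (Cmp (EO c A L))).card := by
    apply Finset.card_le_mul_card_image
    intro r hr
    obtain ⟨y, hy, rfl⟩ := Finset.mem_image.1 hr
    obtain ⟨g, hg, rfl⟩ := mem_Orb.1 hy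
    have h2 : (Orb c A x).filter (fun a => Cmp (EO c A L) a = Cmp (EO c A L) (g x)) ⊆
        Cmp (EO c A L) (g x) := by
      intro a ha
      exact mem_Cmp.2 (reach_of_Cmp6 (Finset.mem_filter.1 ha).2.symm)
    exact (Finset.card_le_card h2).trans ((Cmp_card6 hg x).trans hk)
  have hN : D + 16 * L ^ 3 + 4 * L + 1 < ((Orb c A x).image (Cmp (EO c A L))).card := by
    by_contra hcon
    push Not at hcon
    have h3 : k * ((Orb c A x).image (Cmp (EO c A L))).card ≤ k * (D + 16 * L ^ 3 + 4 * L + 1) :=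
      Nat.mul_le_mul_left k hcon
    omega
  -- the orbits of the elements of the component are large
  have hbig : ∀ z ∈ Cmp (EO c A L) x, D + 16 * L ^ 3 + 4 * L + 1 < (Orb c A z).card := by
    intro z hz
    refine lt_of_lt_of_le hN ?_
    have hz' := mem_Cmp.1 hz
    have hsub : (Orb c A x).image (Cmp (EO c A L)) ⊆ (Orb c A z).image (Cmp (EO c A L)) := by
      intro r hr
      obtain ⟨y, hy, rfl⟩ := Finset.mem_image.1 hr
      obtain ⟨g, hg, rfl⟩ := mem_Orb.1 hy
      exact Finset.mem_image.2 ⟨g z, map_Orb (self_Orb z) hg, Cmp_eq6 (reach_map6 hg hz')⟩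
    exact (Finset.card_le_card hsub).trans Finset.card_image_le
  obtain ⟨I, hI, hIq⟩ := Finset.exists_subset_card_eq
    (show D ≤ ((Orb c A x).image (Cmp (EO c A L))).card by omega)
  have eI : Fin D ≃ I := (Finset.equivFinOfCardEq hIq).symm
  have h3 : ∀ i : Fin D, ∃ g, St c A g ∧ Cmp (EO c A L) (g x) = (eI i : Finset M) := by
    intro i
    obtain ⟨y, hy, hy'⟩ := Finset.mem_image.1 (hI (eI i).2)
    obtain ⟨g, hg, rfl⟩ := mem_Orb.1 hy
    exact ⟨g, hg, hy'⟩
  choose g hg hgr using h3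
  let e := (Cmp (EO c A L) x).equivFin
  let z : Fin (Cmp (EO c A L) x).card → M := fun a => ((e.symm a : Cmp (EO c A L) x) : M)
  have hzm : ∀ a, z a ∈ Cmp (EO c A L) x := fun a => (e.symm a).2
  have hz : ∀ a, (Gr (EO c A L)).Reachable x (z a) := fun a => mem_Cmp.1 (hzm a)
  have hzW : ∀ a, z a ∈ LO c A L := fun a => LO_reach6 hxL (hz a)
  have hzinj : Function.Injective z := fun a b hab => e.symm.injective (Subtype.ext hab)
  have hrt : ∀ i a, Cmp (EO c A L) (g i (z a)) = (eI i : Finset M) := by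
    intro i a
    rw [← hgr i]
    exact Cmp_eq6 (reach_map6 (hg i) (hz a))
  have hcl : ∀ i a, g i (z a) ∈ Orb c A (z a) := fun i a => map_Orb (self_Orb _) (hg i)
  have hcl' : ∀ i i' a, g i' (z a) ∈ Orb c A (g i (z a)) := by
    intro i i' a
    rw [Orb_eq (hcl i a)]
    exact hcl i' a
  have hgW : ∀ i a, g i (z a) ∈ LO c A L := fun i a => LO_of_mem (hcl i a) (hzW a)
  have hij : ∀ i j, i ≠ j → ∀ a b, Cmp (EO c A L) (g i (z a)) ≠ Cmp (EO c A L) (g j (z b)) := by
    intro i j hij a b h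
    rw [hrt, hrt] at h
    exact hij (eI.injective (Subtype.ext h))
  refine ⟨(Cmp (EO c A L) x).card, Finset.card_pos.2 ⟨x, hxx⟩, hk, fun p => g p.1 (z p.2), ?_, ?_, ?_, ?_⟩
  · rintro ⟨i, a⟩ ⟨j, b⟩ h
    have h' : g i (z a) = g j (z b) := h
    have h4 : i = j := by
      by_contra hne
      exact hij i j hne a b (congrArg _ h')
    subst h4
    have h5 := hzinj ((g i).injective h')
    rw [h5]
  · intro i i' a w hw
    show c (g i (z a)) w = c (g i' (z a)) w
    by_cases hwW : w ∈ LO c A L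
    · have hne : ∀ i, ¬ EO c A L (g i (z a)) w := by
        intro i
        apply not_EO_of_Cmp6
        intro h
        have h4 := reach_of_Cmp6 h
        have h5 := reach_map6 (hg i).inv h4
        rw [Equiv.symm_apply_apply] at h5
        have h6 : (g i).symm w ∈ Cmp (EO c A L) x := mem_Cmp.2 ((hz a).trans h5)
        apply hw (i, e ⟨_, h6⟩)
        show g i ((e.symm (e ⟨_, h6⟩) : Cmp (EO c A L) x) : M) = w
        rw [Equiv.symm_apply_apply]
        exact (g i).apply_symm_apply w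
      exact EO_hom hf hH (hgW i a) hwW (hcl' i i' a) (self_Orb w) (hne i) (hne i')
    · have hw4 : (Orb c A w).card ≤ 4 * L := by
        by_contra hcon
        exact hwW (mem_LO.2 (not_le.1 hcon))
      have h4 : (Orb c A w).card ^ 2 * L < (Orb c A (z a)).card := by
        have h5 := hbig _ (hzm a)
        have h6 : (Orb c A w).card ^ 2 * L ≤ (4 * L) ^ 2 * L :=
          Nat.mul_le_mul_right _ (Nat.pow_le_pow_left hw4 2)
        have h7 : (4 * L) ^ 2 * L = 16 * L ^ 3 := by ring
        omega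
      have h5 : ∀ i, c w (g i (z a)) = c w (z a) := fun i =>
        orbital6 hH h4 w (self_Orb w) _ (hcl i a)
      exact hf _ _ _ _ ((h5 i).trans (h5 i').symm)
  · intro i i' a b
    show c (g i (z a)) (g i (z b)) = c (g i' (z a)) (g i' (z b))
    rw [(hg i).1, (hg i').1]
  · intro i j i' j' a b h h'
    show c (g i (z a)) (g j (z b)) = c (g i' (z a)) (g j' (z b))
    exact EO_hom hf hH (hgW i a) (hgW j b) (hcl' i i' a) (hcl' j j' b)
      (not_EO_of_Cmp6 (hij i j h a b)) (not_EO_of_Cmp6 (hij i' j' h' a b))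

end Pool.Agent.Helper12.EK
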