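import Pool.Agent.Helper6.EK.Small
import Pool.Agent.Helper14.EK.K6
import Pool.Agent.Helper31.EK.K5
import Pool.Agent.Helper38.EK.Rand

/-!
# One step: from orbits of size at most `s` to orbits of size at most `s'`
-/

set_option autoImplicit false
set_option linter.unusedSectionVars false

namespace Pool.Agent.Helper12.EK

open Pool.Agent.Helper6.MC

variable {M Col : Type} [Fintype M] [DecidableEq M] [DecidableEq Col] {c : M → M → Col}

/-- K2: hitting the differences of pairs in the old orbits -/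
theorem hit_orb6 {A₀ : Finset M} {s q L : ℕ} (hq : 1 ≤ q)
    (hs : ∀ x, (Orb c A₀ x).card ≤ s) (hL : s * (q - 1) ^ (L + 1) * q ≤ q ^ (L + 1)) :
    ∃ A, A₀ ⊆ A ∧ q * A.card ≤ q * A₀.card + 2 * Fintype.card M ∧ HitO c A L := by
  classical
  obtain ⟨B, hB, h⟩ := Pool.Agent.Helper38.EK.hitting (M := M) (q := q) (B := s) (L := L + 1) hq
    (fun x => ((Orb c A₀ x).image (fun y => Df c x y)).filter (fun D => L < D.card))
    (fun x => ((Finset.card_filter_le _ _).trans Finset.card_image_le).trans (hs x))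
    (fun x D hD => (Finset.mem_filter.1 hD).2)
    (by
      calc s * q * (q - 1) ^ (L + 1) = s * (q - 1) ^ (L + 1) * q := by ring
        _ ≤ _ := hL)
  refine ⟨A₀ ∪ B, Finset.subset_union_left, ?_, ?_⟩
  · have := Finset.card_union_le A₀ B
    calc q * (A₀ ∪ B).card ≤ q * (A₀.card + B.card) := Nat.mul_le_mul_left _ this
      _ = q * A₀.card + q * B.card := by ring
      _ ≤ _ := Nat.add_le_add_left hB _
  · intro x y hy
    by_contra hcon
    rw [not_le] at hcon
    obtain ⟨g, hg, rfl⟩ := mem_Orb.1 hy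
    have hxB : x ∉ B := by
      intro hx
      rw [hg.2 x (Finset.mem_union_right _ hx)] at hcon
      have : Df c x x = ∅ := by
        rw [Finset.eq_empty_iff_forall_notMem]
        intro z hz
        exact (mem_Df.1 hz) rfl
      rw [this, Finset.card_empty] at hcon
      omega
    obtain ⟨z, hz, hzB⟩ := h x hxB (Df c x (g x)) (Finset.mem_filter.2
      ⟨Finset.mem_image.2 ⟨g x, Orb_mono Finset.subset_union_left x hy, rfl⟩, hcon⟩)
    apply mem_Df.1 hz
    have h1 := hg.1 x z
    rw [hg.2 z (Finset.mem_union_right _ hzB)] at h1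
    exact h1.symm

/-- a component is a ball -/
lemma Cmp_eq_Ball6 (E : M → M → Prop) (x : M) : Cmp E x = Ball E x (Fintype.card M) := by
  ext y
  rw [mem_Cmp, mem_Ball]
  refine ⟨fun h => ⟨h, ?_⟩, fun h => h.1⟩
  obtain ⟨p, hp⟩ := h.exists_path_of_dist
  rw [← hp.2]
  exact (hp.1.length_lt).le

/-- K8: one step: from orbits of size `≤ s` to orbits of size `≤ s'` -/
theorem step6 (hf : Flip c) {A₀ : Finset M} {s s' q L M₀ D : ℕ} (hq : 1 ≤ q) (hs : ∀ x, (Orb c A₀ x).card ≤ s)
    (hL : s * (q - 1) ^ (L + 1) * q ≤ q ^ (L + 1)) (hM : (q - 1) ^ (M₀ + 1) * q ≤ q ^ (M₀ + 1))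
    (h1 : ((M₀ + 1) * (2 * L + 1) ^ 2) ^ (Nat.log 2 M₀ + 1) ≤ s')
    (h2 : M₀ * (D + 16 * L ^ 3 + 4 * L + 1) ≤ s') (hD : ∀ t, 1 ≤ t → t ≤ M₀ → ¬ Fam c t D) :
    ∃ A, A₀ ⊆ A ∧ q * A.card ≤ q * A₀.card + 4 * Fintype.card M ∧ ∀ x, (Orb c A x).card ≤ s' := by
  classical
  obtain ⟨A, hA, hAq, hH⟩ := hit_orb6 (c := c) hq hs hL
  obtain ⟨B, hB, hball⟩ := hit_ball (EO c A L) q M₀ hq hM
  have hball' : ∀ z ρ, (∀ y ∈ Ball (EO c A L) z ρ, y ∉ A ∪ B) → (Ball (EO c A L) z ρ).card ≤ M₀ :=
    fun z ρ h => hball z ρ (fun y hy hyB => h y hy (Finset.mem_union_right _ hyB))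
  refine ⟨A ∪ B, hA.trans Finset.subset_union_left, ?_, fun x => ?_⟩
  · have := Finset.card_union_le A B
    calc q * (A ∪ B).card ≤ q * (A.card + B.card) := Nat.mul_le_mul_left _ this
      _ = q * A.card + q * B.card := by ring
      _ ≤ (q * A₀.card + 2 * Fintype.card M) + 2 * Fintype.card M := Nat.add_le_add hAq hB
      _ = _ := by ring
  · by_cases hx : ∃ a ∈ A ∪ B, a ∈ Cmp (EO c A L) x
    · refine le_trans ?_ h1
      exact doubling (A := A) (A₂ := A ∪ B) Finset.subset_union_left (EO c A L)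
        (fun x y h => EO_symm hf hH h) (fun x => EO_card hf hH x)
        (fun g hg x z h => EO_aut hg h) hball' hx
    · push Not at hx
      have h3 : (Cmp (EO c A L) x).card ≤ M₀ := by
        rw [Cmp_eq_Ball6]
        apply hball'
        intro y hy hyA
        rw [← Cmp_eq_Ball6] at hy
        exact hx y hyA hy
      refine le_trans (Finset.card_le_card (Orb_mono (A' := A ∪ B) Finset.subset_union_left x)) (le_trans ?_ h2)
      by_contra hcon
      rw [not_le] at hcon
      obtain ⟨t, ht, htk, hF⟩ := small_comp6 hf hH h3 hcon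
      exact hD t ht htk hF

end Pool.Agent.Helper12.EK
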